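import Pool.Agent.P.MP_0d0d23_co.Proof

open Pool.Agent.P.MP_0d0d23_co

/-- For all `r ≥ 3` and `m ≥ 2` there is a complete simple game (with exactly three types of
players, the empty coalition losing and the grand coalition winning) that has exactly `r`
shift-minimal winning types and is `m`-invariant trade robust but not
`(m + 1)`-invariant trade robust. -/
theorem Pool.Agent.Results.MP_0d0d23_co.ThreeTypes.result :
    ∀ r m : ℕ, 3 ≤ r → 2 ≤ m →
      ∃ (N : Type) (_ : Fintype N) (_ : DecidableEq N) (W : Set (Finset N)) (c : N → Fin 3),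
        IsSimpleGame W ∧ ∅ ∉ W ∧ Finset.univ ∈ W ∧ IsComplete W ∧ IsClassIndex W c ∧
        {a : Fin 3 → ℕ | IsShiftMinimalWinningType W c a}.ncard = r ∧
        InvariantTradeRobust W c m ∧ ¬ InvariantTradeRobust W c (m + 1) := by
  intro r m hr hm
  obtain ⟨u, rfl⟩ : ∃ u, r = u + 3 := ⟨r - 3, by omega⟩
  obtain ⟨D, rfl⟩ : ∃ D, m = D + 1 := ⟨m - 1, by omega⟩
  have hD : 1 ≤ D := by omega
  exact ⟨Pl u D, inferInstance, inferInstance, game u D, cls u D, isSimpleGame, empty_notMem,
    univ_mem, isComplete, isClassIndex hD, ncard_shiftMin hD, robust hD, not_robust hD⟩
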